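import Mathlib
import Pool.Agent.Helper17.Rg.Goals

/-!
# Packet RG-DIG (MP_70814c_an): digit expansions in a window with few bad times
-/

set_option autoImplicit false

namespace Pool.Agent.Helper93.Rg

open Pool.Agent.Helper17.Rg

/-- telescoping for any base -/
theorem tele (b : ℤ) (r : ℝ) (hr : (b : ℝ) = r) (hb : r ≠ 0) (a : ℕ → ℤ) (N : ℕ) :
    ∀ L : ℕ, N ≤ L → (a L : ℝ) / r ^ L = (a N : ℝ) / r ^ N
      + ∑ k ∈ Finset.Ico N L, ((a (k + 1) - b * a k : ℤ) : ℝ) / r ^ (k + 1) := by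
  intro L hL
  induction L, hL using Nat.le_induction with
  | base => simp
  | succ n hn ih =>
    rw [Finset.sum_Ico_succ_top hn, ← add_assoc, ← ih]
    push_cast
    rw [hr, pow_succ]
    field_simp
    ring

/-- the error of rounding -/
theorem err (b : ℝ) (hb : 2 ≤ b) (x : ℝ) (L : ℕ) :
    |x - (round (b ^ L * x) : ℝ) / b ^ L| ≤ 1 / 2 ^ L := by
  have hb0 : (0 : ℝ) < b ^ L := by positivity
  have h1 : x - (round (b ^ L * x) : ℝ) / b ^ L = (b ^ L * x - round (b ^ L * x)) / b ^ L := by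
    field_simp
  rw [h1, abs_div, abs_of_pos hb0]
  have h2 := abs_sub_round (b ^ L * x)
  have h3 : (2 : ℝ) ^ L ≤ b ^ L := pow_le_pow_left₀ (by norm_num) hb L
  have h4 : (0 : ℝ) < 2 ^ L := by positivity
  calc |b ^ L * x - round (b ^ L * x)| / b ^ L ≤ 1 / b ^ L := by
        apply div_le_div_of_nonneg_right _ hb0.le
        linarith
    _ ≤ 1 / 2 ^ L := one_div_le_one_div_of_le h4 h3

/-- a digit in terms of the errors -/
theorem digit (b : ℤ) (r : ℝ) (hr : (b : ℝ) = r) (x : ℝ) (k : ℕ) :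
    ((round (r ^ (k + 1) * x) - b * round (r ^ k * x) : ℤ) : ℝ)
      = r * (r ^ k * x - round (r ^ k * x)) - (r ^ (k + 1) * x - round (r ^ (k + 1) * x)) := by
  push_cast
  rw [hr]
  ring

/-- **DIG** -/
theorem dig (h : Pad) : Dig := by
  classical
  intro m x N L hNL hnb
  set a : ℕ → ℤ := fun k => round ((2 : ℝ) ^ k * x) with ha
  set b : ℕ → ℤ := fun k => round ((3 : ℝ) ^ k * x) with hb
  set d : ℕ → ℤ := fun k => a (k + 1) - 2 * a k with hd
  set e : ℕ → ℤ := fun k => b (k + 1) - 3 * b k with he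
  have ea : ∀ k, |(2 : ℝ) ^ k * x - (a k : ℝ)| ≤ 1 / 2 := fun k => abs_sub_round _
  have eb : ∀ k, |(3 : ℝ) ^ k * x - (b k : ℝ)| ≤ 1 / 2 := fun k => abs_sub_round _
  have hdd : ∀ k, (d k : ℝ) = 2 * ((2 : ℝ) ^ k * x - (a k : ℝ))
      - ((2 : ℝ) ^ (k + 1) * x - (a (k + 1) : ℝ)) := by
    intro k
    have := digit 2 2 (by norm_num) x k
    simpa [hd, ha] using this
  have hee : ∀ k, (e k : ℝ) = 3 * ((3 : ℝ) ^ k * x - (b k : ℝ))
      - ((3 : ℝ) ^ (k + 1) * x - (b (k + 1) : ℝ)) := by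
    intro k
    have := digit 3 3 (by norm_num) x k
    simpa [he, hb] using this
  have bd : ∀ k, |d k| ≤ 1 := by
    intro k
    have h1 := abs_le.1 (ea k)
    have h2 := abs_le.1 (ea (k + 1))
    have h3 : |(d k : ℝ)| < 2 := by
      rw [hdd k, abs_lt]
      constructor <;> linarith [h1.1, h1.2, h2.1, h2.2]
    have h4 : |d k| < 2 := by exact_mod_cast h3
    omega
  have be : ∀ k, |e k| ≤ 2 := by
    intro k
    have h1 := abs_le.1 (eb k)
    have h2 := abs_le.1 (eb (k + 1))
    have h3 : |(e k : ℝ)| ≤ 2 := by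
      rw [hee k, abs_le]
      constructor <;> linarith [h1.1, h1.2, h2.1, h2.2]
    exact_mod_cast h3
  have hbad : ∀ k, (d k ≠ 0 ∨ e k ≠ 0) → Bad x k ∨ Bad x (k + 1) := by
    intro k hk
    by_contra hc
    push Not at hc
    obtain ⟨c1, c2⟩ := hc
    unfold Bad di at c1 c2
    push Not at c1 c2
    have a1 : |(2 : ℝ) ^ k * x - (a k : ℝ)| < 1 / 8 := by
      have := c1.1
      simpa [ha] using this
    have a2 : |(2 : ℝ) ^ (k + 1) * x - (a (k + 1) : ℝ)| < 1 / 8 := by
      have := c2.1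
      simpa [ha] using this
    have b1 : |(3 : ℝ) ^ k * x - (b k : ℝ)| < 1 / 8 := by
      have := c1.2
      simpa [hb] using this
    have b2 : |(3 : ℝ) ^ (k + 1) * x - (b (k + 1) : ℝ)| < 1 / 8 := by
      have := c2.2
      simpa [hb] using this
    rw [abs_lt] at a1 a2 b1 b2
    have d0 : |(d k : ℝ)| < 1 := by
      rw [hdd k, abs_lt]
      constructor <;> linarith [a1.1, a1.2, a2.1, a2.2]
    have e0 : |(e k : ℝ)| < 1 := by
      rw [hee k, abs_lt]
      constructor <;> linarith [b1.1, b1.2, b2.1, b2.2]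
    have d1 : |d k| < 1 := by exact_mod_cast d0
    have e1 : |e k| < 1 := by exact_mod_cast e0
    have d2 : d k = 0 := Int.abs_lt_one_iff.1 d1
    have e2 : e k = 0 := Int.abs_lt_one_iff.1 e1
    rcases hk with hk | hk
    · exact hk d2
    · exact hk e2
  set B : Finset ℕ := (Finset.Icc N L).filter (fun k => Bad x k) with hB
  have hBc : B.card ≤ m := by
    have : nb x N L = B.card := by
      unfold nb
      rw [hB]
    rw [← this]
    exact hnb
  set T : Finset ℕ := (Finset.Ico N L).filter (fun k => d k ≠ 0 ∨ e k ≠ 0) with hT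
  have hTc : T.card ≤ 2 * m := by
    have h1 : T.image Nat.succ ⊆ B ∪ B.image Nat.succ := by
      intro j hj
      rw [Finset.mem_image] at hj
      obtain ⟨k, hk, rfl⟩ := hj
      rw [hT, Finset.mem_filter, Finset.mem_Ico] at hk
      rcases hbad k hk.2 with h2 | h2
      · rw [Finset.mem_union]
        right
        rw [Finset.mem_image]
        refine ⟨k, ?_, rfl⟩
        rw [hB, Finset.mem_filter, Finset.mem_Icc]
        exact ⟨⟨hk.1.1, hk.1.2.le⟩, h2⟩
      · rw [Finset.mem_union]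
        left
        rw [hB, Finset.mem_filter, Finset.mem_Icc]
        exact ⟨⟨by have := hk.1.1; omega, by have := hk.1.2; omega⟩, h2⟩
    have h2 : (T.image Nat.succ).card = T.card :=
      Finset.card_image_of_injective _ Nat.succ_injective
    have h3 := Finset.card_le_card h1
    have h4 := Finset.card_union_le B (B.image Nat.succ)
    have h5 : (B.image Nat.succ).card ≤ B.card := Finset.card_image_le
    omega
  have hSc : (T.image Nat.succ).card ≤ 2 * m := le_trans Finset.card_image_le hTc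
  obtain ⟨l0, a0, hl0, ha0, hF⟩ := h (2 * m) (T.image Nat.succ) N L hSc hNL (by
    intro j hj
    rw [Finset.mem_image] at hj
    obtain ⟨k, hk, rfl⟩ := hj
    rw [hT, Finset.mem_filter, Finset.mem_Ico] at hk
    have := hk.1.1
    have := hk.1.2
    constructor
    · omega
    · omega)
  have sum2 : ∑ k ∈ Finset.Ico N L, (d k : ℝ) / (2 : ℝ) ^ (k + 1)
      = ∑ t, (a0 t : ℝ) * ((d (l0 t - 1) : ℝ) / (2 : ℝ) ^ (l0 t)) := by
    rw [← hF (fun j => (d (j - 1) : ℝ) / (2 : ℝ) ^ j)]
    rw [Finset.sum_image (fun i _ j _ hij => Nat.succ_injective hij)]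
    rw [hT, Finset.sum_filter]
    apply Finset.sum_congr rfl
    intro k _
    by_cases hk : d k ≠ 0 ∨ e k ≠ 0
    · rw [if_pos hk]
      simp
    · rw [if_neg hk]
      push Not at hk
      rw [hk.1]
      simp
  have sum3 : ∑ k ∈ Finset.Ico N L, (e k : ℝ) / (3 : ℝ) ^ (k + 1)
      = ∑ t, (a0 t : ℝ) * ((e (l0 t - 1) : ℝ) / (3 : ℝ) ^ (l0 t)) := by
    rw [← hF (fun j => (e (j - 1) : ℝ) / (3 : ℝ) ^ j)]
    rw [Finset.sum_image (fun i _ j _ hij => Nat.succ_injective hij)]
    rw [hT, Finset.sum_filter]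
    apply Finset.sum_congr rfl
    intro k _
    by_cases hk : d k ≠ 0 ∨ e k ≠ 0
    · rw [if_pos hk]
      simp
    · rw [if_neg hk]
      push Not at hk
      rw [hk.2]
      simp
  refine ⟨Fin.append (fun t => a0 t * d (l0 t - 1)) (fun t => a0 t * e (l0 t - 1)),
    Fin.append (fun _ => false) (fun _ => true), Fin.append l0 l0, ?_, ?_, ?_, ?_⟩
  · intro t
    refine Fin.addCases (fun i => ?_) (fun i => ?_) t
    · rw [Fin.append_left]
      rcases ha0 i with h0 | h0
      · rw [h0]; simp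
      · rw [h0, one_mul]; exact le_trans (bd _) (by norm_num)
    · rw [Fin.append_right]
      rcases ha0 i with h0 | h0
      · rw [h0]; simp
      · rw [h0, one_mul]; exact be _
  · intro t
    refine Fin.addCases (fun i => ?_) (fun i => ?_) t
    · rw [Fin.append_left]; exact hl0 i
    · rw [Fin.append_right]; exact hl0 i
  · have e1 : pt2 (fun t => ((Fin.append (fun t => a0 t * d (l0 t - 1))
        (fun t => a0 t * e (l0 t - 1)) t : ℤ) : ℝ))
        (Fin.append (fun _ => false) (fun _ => true)) (Fin.append l0 l0)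
        = ∑ k ∈ Finset.Ico N L, (d k : ℝ) / (2 : ℝ) ^ (k + 1) := by
      unfold pt2
      rw [Fin.sum_univ_add, sum2]
      simp only [Fin.append_left, Fin.append_right]
      simp only [Bool.false_eq_true, if_false, if_true, Finset.sum_const_zero, add_zero]
      apply Finset.sum_congr rfl
      intro t _
      push_cast
      ring
    rw [e1]
    have t2 := tele 2 2 (by norm_num) (by norm_num) a N L hNL
    have r2 := err 2 (le_refl _) x L
    have h5 : x - (round ((2 : ℝ) ^ N * x) : ℝ) / 2 ^ N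
        - ∑ k ∈ Finset.Ico N L, (d k : ℝ) / (2 : ℝ) ^ (k + 1)
        = x - (round ((2 : ℝ) ^ L * x) : ℝ) / 2 ^ L := by
      have h6 : (round ((2 : ℝ) ^ L * x) : ℝ) / 2 ^ L = (round ((2 : ℝ) ^ N * x) : ℝ) / 2 ^ N
          + ∑ k ∈ Finset.Ico N L, (d k : ℝ) / (2 : ℝ) ^ (k + 1) := by
        simpa [ha, hd] using t2
      rw [h6]
      ring
    rw [h5]
    exact r2
  · have e1 : pt3 (fun t => ((Fin.append (fun t => a0 t * d (l0 t - 1))
        (fun t => a0 t * e (l0 t - 1)) t : ℤ) : ℝ))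
        (Fin.append (fun _ => false) (fun _ => true)) (Fin.append l0 l0)
        = ∑ k ∈ Finset.Ico N L, (e k : ℝ) / (3 : ℝ) ^ (k + 1) := by
      unfold pt3
      rw [Fin.sum_univ_add, sum3]
      simp only [Fin.append_left, Fin.append_right]
      simp only [Bool.false_eq_true, if_false, if_true, Finset.sum_const_zero, zero_add]
      apply Finset.sum_congr rfl
      intro t _
      push_cast
      ring
    rw [e1]
    have t2 := tele 3 3 (by norm_num) (by norm_num) b N L hNL
    have r2 := err 3 (by norm_num) x L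
    have h5 : x - (round ((3 : ℝ) ^ N * x) : ℝ) / 3 ^ N
        - ∑ k ∈ Finset.Ico N L, (e k : ℝ) / (3 : ℝ) ^ (k + 1)
        = x - (round ((3 : ℝ) ^ L * x) : ℝ) / 3 ^ L := by
      have h6 : (round ((3 : ℝ) ^ L * x) : ℝ) / 3 ^ L = (round ((3 : ℝ) ^ N * x) : ℝ) / 3 ^ N
          + ∑ k ∈ Finset.Ico N L, (e k : ℝ) / (3 : ℝ) ^ (k + 1) := by
        simpa [hb, he] using t2
      rw [h6]
      ring
    rw [h5]
    exact r2

end Pool.Agent.Helper93.Rg
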